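import Pool.Agent.U945.AL.Count

set_option autoImplicit false

/-!
# Division groups and lines
-/

namespace Pool.Agent.U945.AL

open Finset Pool.Agent.N175.BG

variable {F : Type} [Field F]

lemma indiv_mul {r : ℕ} {g : Fin r → F} (hg : ∀ j, g j ≠ 0) {z w : F} (hz : InDiv g z)
    (hw : InDiv g w) : InDiv g (z * w) := by
  obtain ⟨m, hm, a, ha⟩ := hz
  obtain ⟨m', hm', a', ha'⟩ := hw
  refine ⟨m * m', Nat.mul_pos hm hm', fun j => m' * a j + m * a' j, ?_⟩
  have h1 : ∀ j, g j ^ ((m' : ℤ) * a j + m * a' j) = (g j ^ a j) ^ m' * (g j ^ a' j) ^ m := by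
    intro j
    rw [zpow_add₀ (hg j), mul_comm (m' : ℤ), mul_comm (m : ℤ), zpow_mul, zpow_mul, zpow_natCast,
      zpow_natCast]
  rw [Finset.prod_congr rfl (fun j _ => h1 j), Finset.prod_mul_distrib, Finset.prod_pow,
    Finset.prod_pow, ← ha, ← ha', mul_pow, ← pow_mul, ← pow_mul, mul_comm m' m]

lemma indiv_gen {r : ℕ} (g : Fin r → F) (j : Fin r) : InDiv g (g j) := by
  refine ⟨1, one_pos, Pi.single j 1, ?_⟩
  rw [pow_one, Finset.prod_eq_single j]
  · rw [Pi.single_eq_same, zpow_one]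
  · intro i _ hij
    rw [Pi.single_eq_of_ne hij, zpow_zero]
  · intro h
    exact absurd (mem_univ j) h

lemma indiv_left {r r' : ℕ} {g : Fin r → F} (g' : Fin r' → F) {z : F} (hz : InDiv g z) :
    InDiv (Fin.append g g') z := by
  obtain ⟨m, hm, a, ha⟩ := hz
  refine ⟨m, hm, Fin.append a 0, ?_⟩
  rw [ha, Fin.prod_univ_add]
  simp

lemma indiv_right {r r' : ℕ} (g : Fin r → F) {g' : Fin r' → F} {z : F} (hz : InDiv g' z) :
    InDiv (Fin.append g g') z := by
  obtain ⟨m, hm, a, ha⟩ := hz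
  refine ⟨m, hm, Fin.append 0 a, ?_⟩
  rw [ha, Fin.prod_univ_add]
  simp

lemma append_ne {r r' : ℕ} {g : Fin r → F} {g' : Fin r' → F} (hg : ∀ j, g j ≠ 0)
    (hg' : ∀ j, g' j ≠ 0) : ∀ j, Fin.append g g' j ≠ 0 := by
  intro j
  refine Fin.addCases (fun i => ?_) (fun i => ?_) j
  · rw [Fin.append_left]
    exact hg i
  · rw [Fin.append_right]
    exact hg' i

lemma bounded_set {α : Type*} {A : Set α} {N : ℕ} (h : ∀ E : Finset α, (∀ e ∈ E, e ∈ A) →
    E.card ≤ N) : A.Finite ∧ A.ncard ≤ N := by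
  have hf : A.Finite := by
    by_contra hinf
    obtain ⟨s, hs, hcard⟩ := Set.Infinite.exists_subset_card_eq hinf (N + 1)
    have := h s (fun e he => hs he)
    omega
  refine ⟨hf, ?_⟩
  rw [Set.ncard_eq_toFinset_card A hf]
  exact h _ (fun e he => (Set.Finite.mem_toFinset hf).1 he)

/-- **Lines.** -/
theorem line : ∃ C : ℕ, 1 ≤ C ∧ ∀ (r : ℕ) (F : Type) [Field F] [CharZero F] (g g' : Fin r → F),
    (∀ j, g j ≠ 0) → (∀ j, g' j ≠ 0) → ∀ a b : F, a ≠ 0 → b ≠ 0 → ∀ E : Finset (F × F),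
    (∀ e ∈ E, a * e.1 + b * e.2 = 1 ∧ e.1 ≠ 0 ∧ e.2 ≠ 0 ∧ InDiv g e.1 ∧ InDiv g' e.2) →
    E.card ≤ C ^ (r + 1) := by
  classical
  obtain ⟨C, hC1, hC⟩ := cnt
  refine ⟨C ^ 3, Nat.one_le_pow _ _ hC1, ?_⟩
  intro r F _ _ g g' hg hg' a b ha hb E hE
  set G : Fin (r + (r + 2)) → F := Fin.append g (Fin.append g' ![-a, b]) with hG
  have hab : ∀ j, (![-a, b] : Fin 2 → F) j ≠ 0 := by
    intro j
    fin_cases j
    · exact neg_ne_zero.2 ha
    · exact hb
  have hG0 : ∀ j, G j ≠ 0 := append_ne hg (append_ne hg' hab)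
  have hGa : InDiv G (-a) := indiv_right g (indiv_right g' (indiv_gen ![-a, b] 0))
  have hGb : InDiv G b := indiv_right g (indiv_right g' (indiv_gen ![-a, b] 1))
  have h1 := hC _ F G hG0 (E.image (fun e => (-a) * e.1)) (by
    intro x hx
    rw [Finset.mem_image] at hx
    obtain ⟨e, he, rfl⟩ := hx
    obtain ⟨h1, h2, h3, h4, h5⟩ := hE e he
    have e1 : (-a) * e.1 + 1 = b * e.2 := by linear_combination (-1 : F) * h1
    refine ⟨mul_ne_zero (neg_ne_zero.2 ha) h2, ?_, ?_, ?_⟩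
    · rw [e1]
      exact mul_ne_zero hb h3
    · exact indiv_mul hG0 hGa (indiv_left _ h4)
    · rw [e1]
      exact indiv_mul hG0 hGb (indiv_right g (indiv_left _ h5)))
  rw [Finset.card_image_of_injOn] at h1
  · refine h1.trans ?_
    rw [← pow_mul]
    exact Nat.pow_le_pow_right hC1 (by omega)
  · intro e he e' he' h
    have h2 : e.1 = e'.1 := mul_left_cancel₀ (neg_ne_zero.2 ha) h
    have h3 := (hE e he).1
    have h4 := (hE e' he').1
    rw [h2, ← h4] at h3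
    have h5 : e.2 = e'.2 := mul_left_cancel₀ hb (add_left_cancel h3)
    exact Prod.ext h2 h5

end Pool.Agent.U945.AL
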