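import Pool.Agent.U945.AL.PRank

set_option autoImplicit false

/-!
# Quotients of `p`-adic logarithms at the algebraic points of a line
-/

namespace Pool.Agent.U945.AL

open Module Pool.Agent.N175.BG
open Pool.Agent.W254.PA (LtE logs)
open Pool.Agent.W245.PB (IsIwasawaLog brumer exists_near pe pe_zero)

variable {p : ℕ} [hp : Fact p.Prime] {L : PadicAlgCl p → PadicAlgCl p} (hL : IsIwasawaLog p L)

include hL in
/-- the `p`-adic theorem of Gelfond and Schneider (Mahler) -/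
lemma pgs {s x y : PadicAlgCl p} (hs : IsAlgebraic ℚ s) (hirr : ∀ q : ℚ, s ≠ q) (hx : x ≠ 0)
    (hy : y ≠ 0) (hxa : IsAlgebraic ℚ x) (hya : IsAlgebraic ℚ y) (h : L y = s * L x) :
    L x = 0 ∧ L y = 0 := by
  suffices h0 : L x = 0 by
    refine ⟨h0, ?_⟩
    rw [h, h0, mul_zero]
  by_contra hne
  by_cases hli : LinearIndependent ℚ (fun i : Fin 2 => L ((![x, y] : Fin 2 → PadicAlgCl p) i))
  · have := (brumer hL (![x, y] : Fin 2 → PadicAlgCl p) (by
      intro i
      fin_cases i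
      · exact hx
      · exact hy) (by
      intro i
      fin_cases i
      · exact hxa
      · exact hya) hli 0 isAlgebraic_zero ![s, -1] (by
      intro i
      fin_cases i
      · exact hs
      · exact isAlgebraic_one.neg) (by
      rw [Fin.sum_univ_two]
      simp [h])).2 1
    simp at this
  · have e : (fun i : Fin 2 => L ((![x, y] : Fin 2 → PadicAlgCl p) i)) = ![L x, L y] := by
      funext i
      fin_cases i <;> rfl
    rw [e, LinearIndependent.pair_iff] at hli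
    push Not at hli
    obtain ⟨c, u, hsu, hne2⟩ := hli
    rw [Rat.smul_def, Rat.smul_def, h] at hsu
    have h1 : ((c : PadicAlgCl p) + u * s) * L x = 0 := by linear_combination hsu
    have h2 : (c : PadicAlgCl p) + u * s = 0 := (mul_eq_zero.1 h1).resolve_right hne
    by_cases hu : u = 0
    · rw [hu] at h2
      have hc : c = 0 := by
        have : (c : PadicAlgCl p) = 0 := by simpa using h2
        exact_mod_cast this
      exact hne2 hc hu
    · apply hirr (-c / u)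
      have hu' : (u : PadicAlgCl p) ≠ 0 := by exact_mod_cast hu
      push_cast
      field_simp
      linear_combination h2

theorem pmain : ∃ C : ℕ, ∀ (p : ℕ) [Fact p.Prime] (L : PadicAlgCl p → PadicAlgCl p),
    IsIwasawaLog p L →
    (∀ s : PadicAlgCl p, (∀ q : ℚ, s ≠ q) → ∀ a b : PadicAlgCl p, a ≠ 0 → b ≠ 0 →
      ∀ E : Finset (PadicAlgCl p × PadicAlgCl p),
      (∀ e ∈ E, a * e.1 + b * e.2 = 1 ∧ e.1 ≠ 0 ∧ e.2 ≠ 0 ∧ IsAlgebraic ℚ e.1 ∧
        IsAlgebraic ℚ e.2 ∧ L e.2 = s * L e.1) → E.card ≤ C) ∧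
    (∀ (k : ℕ) (s t : PadicAlgCl p), Transcendental ℚ s → Transcendental ℚ t →
      ∀ V : Submodule (QP p) (PadicAlgCl p), FiniteDimensional (QP p) V →
      finrank (QP p) V ≤ k → ∀ a b : PadicAlgCl p, a ≠ 0 → b ≠ 0 →
      ∀ E : Finset (PadicAlgCl p × PadicAlgCl p),
      (∀ e ∈ E, a * e.1 + b * e.2 = 1 ∧ e.1 ∈ GP L s V ∧ e.2 ∈ GP L t V) →
      E.card ≤ C ^ (k + 1)) := by
  obtain ⟨C, hC1, hC⟩ := line
  refine ⟨C ^ 4, ?_⟩
  intro p _ L hL
  have hpne : (p : PadicAlgCl p) ≠ 0 :=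
    Nat.cast_ne_zero.2 (Fact.out : p.Prime).ne_zero
  have part2 : ∀ (k : ℕ) (s t : PadicAlgCl p), Transcendental ℚ s → Transcendental ℚ t →
      ∀ V : Submodule (QP p) (PadicAlgCl p), FiniteDimensional (QP p) V →
      finrank (QP p) V ≤ k → ∀ a b : PadicAlgCl p, a ≠ 0 → b ≠ 0 →
      ∀ E : Finset (PadicAlgCl p × PadicAlgCl p),
      (∀ e ∈ E, a * e.1 + b * e.2 = 1 ∧ e.1 ∈ GP L s V ∧ e.2 ∈ GP L t V) →
      E.card ≤ (C ^ 4) ^ (k + 1) := by
    intro k s t hs ht V hV hk a b ha hb E hE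
    obtain ⟨g, hg, hgs⟩ := pgens hL hs V hk
    obtain ⟨g', hg', hgt⟩ := pgens hL ht V hk
    have h1 := hC _ (PadicAlgCl p) g g' hg hg' a b ha hb E (fun e he => by
      obtain ⟨h1, h2, h3⟩ := hE e he
      exact ⟨h1, h2.1, h3.1, hgs _ h2, hgt _ h3⟩)
    refine h1.trans ?_
    rw [← pow_mul]
    exact Nat.pow_le_pow_right hC1 (by omega)
  refine ⟨fun s hs a b ha hb E hE => ?_, part2⟩
  by_cases halg : IsAlgebraic ℚ s
  · have hker : ∀ x : PadicAlgCl p, x ≠ 0 → L x = 0 → InDiv (![(p : PadicAlgCl p)]) x := by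
      intro x hx h
      obtain ⟨m, hm, r, hmr⟩ := ker_log hL hx h
      exact ⟨m, hm, ![r], by simpa using hmr⟩
    have hp1 : ∀ j, (![(p : PadicAlgCl p)] : Fin 1 → PadicAlgCl p) j ≠ 0 := by
      intro j
      fin_cases j
      exact hpne
    have h1 := hC 1 (PadicAlgCl p) ![(p : PadicAlgCl p)] ![(p : PadicAlgCl p)] hp1 hp1 a b ha hb E
      (fun e he => by
        obtain ⟨h1, h2, h3, h4, h5, h6⟩ := hE e he
        obtain ⟨h7, h8⟩ := pgs hL halg hs h2 h3 h4 h5 h6
        exact ⟨h1, h2, h3, hker _ h2 h7, hker _ h3 h8⟩)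
    exact h1.trans (Nat.pow_le_pow_right hC1 (by omega))
  · have hs0 : s ≠ 0 := fun h => hs 0 (by rw [h]; simp)
    have hinv : Transcendental ℚ s⁻¹ := fun h => halg (by
      have := h.inv
      rwa [inv_inv] at this)
    have h1 := part2 0 s s⁻¹ halg hinv ⊥ inferInstance (by rw [finrank_bot]) a b ha hb E (by
      intro e he
      obtain ⟨h1, h2, h3, h4, h5, h6⟩ := hE e he
      refine ⟨h1, ⟨h2, h4, ?_⟩, ⟨h3, h5, ?_⟩⟩
      · rw [sup_bot_eq, ← h6]
        exact Submodule.subset_span (Or.inr ⟨e.2, h3, h5, rfl⟩)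
      · rw [sup_bot_eq, h6, inv_mul_cancel_left₀ hs0]
        exact Submodule.subset_span (Or.inr ⟨e.1, h2, h4, rfl⟩))
    rwa [zero_add, pow_one] at h1

end Pool.Agent.U945.AL
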