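import Pool.Agent.U945.AL.CRank

set_option autoImplicit false

/-!
# Quotients of logarithms at the algebraic points of a line
-/

namespace Pool.Agent.U945.AL

open Module Pool.Agent.N175.BG
open Pool.Agent.H301R2.SSE (QB mem_QB Lt Lt_one Lt_log Lg mem_Lg)

/-- Gelfond-Schneider -/
lemma gs {s : ℂ} (hs : IsAlgebraic ℚ s) (hirr : ∀ q : ℚ, s ≠ q) {z : ℂ} (hz : z ∈ Lg)
    (hsz : s * z ∈ Lg) : z = 0 := by
  by_contra hne
  by_cases hli : LinearIndependent ℚ (![z, s * z] : Fin 2 → ℂ)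
  · have := (Pool.Agent.H297R2.baker_inhom (![z, s * z] : Fin 2 → ℂ) (by
      intro i
      fin_cases i
      · exact mem_Lg.1 hz
      · exact mem_Lg.1 hsz) hli 0 isAlgebraic_zero ![s, -1] (by
      intro i
      fin_cases i
      · exact hs
      · exact isAlgebraic_one.neg) (by
      rw [Fin.sum_univ_two]
      simp)).2 1
    simp at this
  · rw [LinearIndependent.pair_iff] at hli
    push Not at hli
    obtain ⟨c, u, hsu, hne2⟩ := hli
    rw [Rat.smul_def, Rat.smul_def] at hsu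
    have h1 : ((c : ℂ) + u * s) * z = 0 := by linear_combination hsu
    have h2 : (c : ℂ) + u * s = 0 := (mul_eq_zero.1 h1).resolve_right hne
    by_cases hu : u = 0
    · rw [hu] at h2
      have hc : c = 0 := by
        have : (c : ℂ) = 0 := by simpa using h2
        exact_mod_cast this
      exact hne2 hc hu
    · apply hirr (-c / u)
      have hu' : (u : ℂ) ≠ 0 := by exact_mod_cast hu
      push_cast
      field_simp
      linear_combination h2

/-- the algebraic points of a line with logarithms in given sets -/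
def LinePts (a b : ℂ) (X : Set ℂ) (Y : Set ℂ) : Set (ℂ × ℂ) :=
  {e | a * e.1 + b * e.2 = 1 ∧ (∃ x ∈ X, Complex.exp x = e.1) ∧ ∃ y ∈ Y, Complex.exp y = e.2}

theorem main : ∃ C : ℕ,
    (∀ s : ℂ, (∀ q : ℚ, s ≠ q) → ∀ a b : ℂ, a ≠ 0 → b ≠ 0 → ∀ E : Finset (ℂ × ℂ),
      (∀ e ∈ E, a * e.1 + b * e.2 = 1 ∧ ∃ x, IsAlgebraic ℚ (Complex.exp x) ∧
        IsAlgebraic ℚ (Complex.exp (s * x)) ∧ Complex.exp x = e.1 ∧ Complex.exp (s * x) = e.2) →
      E.card ≤ C) ∧
    (∀ (k : ℕ) (s t : ℂ), Transcendental ℚ s →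
      Transcendental ℚ t → ∀ V : Submodule QB ℂ, FiniteDimensional QB V → finrank QB V ≤ k →
      ∀ a b : ℂ, a ≠ 0 → b ≠ 0 → ∀ E : Finset (ℂ × ℂ),
      (∀ e ∈ E, a * e.1 + b * e.2 = 1 ∧ (∃ x ∈ Lam s V, Complex.exp x = e.1) ∧
        ∃ y ∈ Lam t V, Complex.exp y = e.2) → E.card ≤ C ^ (k + 1)) := by
  obtain ⟨C, hC1, hC⟩ := line_logs
  refine ⟨C, fun s hs a b ha hb E hE => ?_, hC⟩
  by_cases halg : IsAlgebraic ℚ s
  · refine le_trans ?_ hC1
    rw [Finset.card_le_one]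
    have key : ∀ e ∈ E, e = (1, 1) := by
      intro e he
      obtain ⟨-, x, hx, hsx, h1, h2⟩ := hE e he
      have hx0 : x = 0 := gs halg hs (mem_Lg.2 hx) (mem_Lg.2 hsx)
      rw [hx0, Complex.exp_zero] at h1
      rw [hx0, mul_zero, Complex.exp_zero] at h2
      exact Prod.ext h1.symm h2.symm
    intro e he e' he'
    rw [key e he, key e' he']
  · have hs0 : s ≠ 0 := fun h => hs 0 (by rw [h]; simp)
    have hinv : Transcendental ℚ s⁻¹ := fun h => halg (by
      have := h.inv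
      rwa [inv_inv] at this)
    have h1 := hC 0 s s⁻¹ halg hinv ⊥ inferInstance (by rw [finrank_bot]) a b ha hb E (by
      intro e he
      obtain ⟨h1, x, hx, hsx, h2, h3⟩ := hE e he
      refine ⟨h1, ⟨x, mem_Lam.2 ⟨hx, ?_⟩, h2⟩, s * x, mem_Lam.2 ⟨hsx, ?_⟩, h3⟩
      · rw [sup_bot_eq]
        exact Lt_log hsx
      · rw [sup_bot_eq, inv_mul_cancel_left₀ hs0]
        exact Lt_log hx)
    rwa [zero_add, pow_one] at h1

end Pool.Agent.U945.AL
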