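import Pool.Agent.N770.Dir

set_option autoImplicit false

/-!
# The rank bound in an abstract setting
-/

namespace Pool.Agent.U945.AL

open Module
open Pool.Agent.N770 (SixExp)

/-- the rank bound -/
theorem abs_rank {K L : Type*} [Field K] [Field L] [Algebra K L] {S : Submodule K L}
    (hS : SixExp K S) (V : Submodule K L) [FiniteDimensional K V] {n : ℕ} {w : Fin n → L}
    (hw : LinearIndependent K w) (hwS : ∀ i, w i ∈ S) {s : L} (hs : ∀ c : K, s ≠ algebraMap K L c)
    (hm : ∀ i, s * w i ∈ S ⊔ V) : n ≤ finrank K V + 2 := by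
  by_contra hcon
  push Not at hcon
  set W : Submodule K L := Submodule.span K (Set.range w) with hW
  have hfr : finrank K W = n := by
    rw [hW, finrank_span_eq_card hw, Fintype.card_fin]
  have : FiniteDimensional K W := by
    rw [hW]
    exact FiniteDimensional.span_of_finite K (Set.finite_range _)
  set φ : W →ₗ[K] (L ⧸ S) := (S.mkQ.comp (LinearMap.mulLeft K s)).comp W.subtype with hφ
  have hφa : ∀ w : W, φ w = S.mkQ (s * (w : L)) := fun w => rfl
  have hrange : LinearMap.range φ ≤ V.map S.mkQ := by
    rintro _ ⟨w, rfl⟩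
    rw [hφa]
    have hw : ∀ z ∈ W, s * z ∈ S ⊔ V := by
      intro z hz
      rw [hW] at hz
      induction hz using Submodule.span_induction with
      | mem z hz =>
        obtain ⟨i, rfl⟩ := hz
        exact hm i
      | zero => rw [mul_zero]; exact zero_mem _
      | add a b _ _ ha hb => rw [mul_add]; exact add_mem ha hb
      | smul c a _ ha => rw [mul_smul_comm]; exact Submodule.smul_mem _ c ha
    obtain ⟨u, hu, v, hv, huv⟩ := Submodule.mem_sup.1 (hw w w.2)
    rw [← huv, map_add]
    have : S.mkQ u = 0 := by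
      rw [Submodule.mkQ_apply]
      exact (Submodule.Quotient.mk_eq_zero S).2 hu
    rw [this, zero_add]
    exact Submodule.mem_map_of_mem hv
  have : FiniteDimensional K (V.map S.mkQ) := inferInstance
  have h1 : finrank K (LinearMap.range φ) ≤ finrank K V :=
    (Submodule.finrank_mono hrange).trans (Submodule.finrank_map_le _ _)
  have h2 := LinearMap.finrank_range_add_finrank_ker φ
  rw [hfr] at h2
  have h3 : 3 ≤ finrank K (LinearMap.ker φ) := by omega
  set T : Submodule K L := (LinearMap.ker φ).map W.subtype with hT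
  have h3' : 3 ≤ finrank K T := by
    rw [hT, Submodule.finrank_map_subtype_eq]
    exact h3
  have hTW : ∀ t ∈ T, t ∈ W ∧ s * t ∈ S := by
    intro t ht
    obtain ⟨w, hw, rfl⟩ := Submodule.mem_map.1 ht
    refine ⟨w.2, ?_⟩
    have h7 : φ w = 0 := LinearMap.mem_ker.1 hw
    rw [hφa, Submodule.mkQ_apply] at h7
    exact (Submodule.Quotient.mk_eq_zero S).1 h7
  clear_value T
  obtain ⟨f, hf⟩ := exists_linearIndependent_of_le_finrank h3'
  have hWL : W ≤ S := by
    rw [hW, Submodule.span_le]
    rintro _ ⟨i, rfl⟩
    exact hwS i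
  have h5 : LinearIndependent K (fun j => (f j : L)) := hf.map' T.subtype (Submodule.ker_subtype _)
  exact hS s hs (fun j => (f j : L)) h5 (fun j => hWL (hTW _ (f j).2).1) (fun j => (hTW _ (f j).2).2)

end Pool.Agent.U945.AL
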