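import Pool.Agent.U945.AP.Gen
import Pool.Agent.U945.AL.Div

set_option autoImplicit false

/-!
# The logarithms `λ` of algebraic numbers with `s λ` in a space of linear forms in logarithms
-/

namespace Pool.Agent.U945.AL

open Module Pool.Agent.N175.BG
open Pool.Agent.H301R2.SSE (QB mem_QB Lt Lt_one Lt_log Lg mem_Lg)

/-- Baker's theorem -/
lemma baker {n : ℕ} {w : Fin n → ℂ} (hw : ∀ i, w i ∈ Lg) (h : LinearIndependent ℚ w) :
    LinearIndependent QB w := by
  rw [Fintype.linearIndependent_iff]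
  intro g hg
  have hb := (Pool.Agent.H297R2.baker_inhom w (fun i => mem_Lg.1 (hw i)) h 0 isAlgebraic_zero
    (fun i => (g i : ℂ)) (fun i => mem_QB.1 (g i).2) (by
      rw [zero_add]; exact hg)).2
  intro i
  exact Subtype.ext (hb i)

/-- the rank -/
theorem rank_le' {s : ℂ} (hs : Transcendental ℚ s) (V : Submodule QB ℂ)
    [FiniteDimensional QB V] {n : ℕ} {w : Fin n → ℂ} (hw : ∀ i, w i ∈ Lg)
    (h : LinearIndependent ℚ w) (hm : ∀ i, s * w i ∈ Lt ⊔ V) : n ≤ finrank QB V + 2 := by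
  by_contra hcon
  push Not at hcon
  set W : Submodule QB ℂ := Submodule.span QB (Set.range w) with hW
  have hfr : finrank QB W = n := by
    rw [hW, finrank_span_eq_card (baker hw h), Fintype.card_fin]
  have : FiniteDimensional QB W := by
    rw [hW]
    exact FiniteDimensional.span_of_finite QB (Set.finite_range _)
  set φ : W →ₗ[QB] (ℂ ⧸ Lt) := (Lt.mkQ.comp (LinearMap.mulLeft QB s)).comp W.subtype with hφ
  have hφa : ∀ w : W, φ w = Lt.mkQ (s * (w : ℂ)) := fun w => rfl
  have hrange : LinearMap.range φ ≤ V.map Lt.mkQ := by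
    rintro _ ⟨w, rfl⟩
    rw [hφa]
    have hw : ∀ z ∈ W, s * z ∈ Lt ⊔ V := by
      intro z hz
      rw [hW] at hz
      induction hz using Submodule.span_induction with
      | mem z hz =>
        obtain ⟨i, rfl⟩ := hz
        exact hm i
      | zero => rw [mul_zero]; exact zero_mem _
      | add a b _ _ ha hb => rw [mul_add]; exact add_mem ha hb
      | smul c a _ ha => rw [mul_smul_comm]; exact Submodule.smul_mem _ c ha
    obtain ⟨u, hu, v, hv, huv⟩ := Submodule.mem_sup.1 (hw w w.2)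
    rw [← huv, map_add]
    have : Lt.mkQ u = 0 := by
      rw [Submodule.mkQ_apply]
      exact (Submodule.Quotient.mk_eq_zero Lt).2 hu
    rw [this, zero_add]
    exact Submodule.mem_map_of_mem hv
  have : FiniteDimensional QB (V.map Lt.mkQ) := inferInstance
  have h1 : finrank QB (LinearMap.range φ) ≤ finrank QB V :=
    (Submodule.finrank_mono hrange).trans (Submodule.finrank_map_le _ _)
  have h2 := LinearMap.finrank_range_add_finrank_ker φ
  rw [hfr] at h2
  have h3 : 3 ≤ finrank QB (LinearMap.ker φ) := by omega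
  obtain ⟨f, hf⟩ := exists_linearIndependent_of_le_finrank h3
  have hWL : W ≤ Lt := by
    rw [hW, Submodule.span_le]
    rintro _ ⟨i, rfl⟩
    exact Lt_log (mem_Lg.1 (hw i))
  refine Pool.Agent.N770.six s (fun c hc => hs (by rw [hc]; exact mem_QB.1 c.2))
    (fun j => ((f j : W) : ℂ)) ?_ (fun j => hWL (f j : W).2) (fun j => ?_)
  · have h4 := hf.map' (LinearMap.ker φ).subtype (Submodule.ker_subtype _)
    have h5 := h4.map' W.subtype (Submodule.ker_subtype _)
    exact h5
  · have h4 : φ (f j : W) = 0 := (f j).2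
    rw [hφa, Submodule.mkQ_apply] at h4
    exact (Submodule.Quotient.mk_eq_zero Lt).1 h4

/-- the logarithms `λ` of algebraic numbers with `s λ` in `Lt ⊔ V` -/
noncomputable def Lam (s : ℂ) (V : Submodule QB ℂ) : Submodule ℚ ℂ :=
  Lg ⊓ ((Lt ⊔ V).restrictScalars ℚ).comap (LinearMap.mulLeft ℚ s)

lemma mem_Lam {s : ℂ} {V : Submodule QB ℂ} {z : ℂ} :
    z ∈ Lam s V ↔ IsAlgebraic ℚ (Complex.exp z) ∧ s * z ∈ Lt ⊔ V := Iff.rfl

theorem lam_rank {s : ℂ} (hs : Transcendental ℚ s) (V : Submodule QB ℂ)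
    [FiniteDimensional QB V] : Module.rank ℚ (Lam s V) ≤ ((finrank QB V + 2 : ℕ) : Cardinal) := by
  classical
  apply _root_.rank_le
  intro S hS
  set e := S.equivFin with he
  have h1 : LinearIndependent ℚ (fun i : Fin S.card => (((e.symm i : S) : Lam s V) : ℂ)) := by
    have h2 := hS.comp _ e.symm.injective
    exact h2.map' (Lam s V).subtype (Submodule.ker_subtype _)
  exact rank_le' hs V (fun i => ((e.symm i : S) : Lam s V).2.1) h1
    (fun i => ((e.symm i : S) : Lam s V).2.2)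

/-- a rational linear combination, exponentiated -/
lemma indiv_exp {n : ℕ} (b : Fin n → ℂ) (q : Fin n → ℚ) :
    InDiv (fun j => Complex.exp (b j)) (Complex.exp (∑ j, (q j : ℂ) * b j)) := by
  classical
  set m : ℕ := ∏ j, (q j).den with hm
  have hm0 : 0 < m := Finset.prod_pos (fun j _ => (q j).den_pos)
  refine ⟨m, hm0, fun j => (q j).num * ((∏ i ∈ Finset.univ.erase j, (q i).den : ℕ) : ℤ), ?_⟩
  rw [← Complex.exp_nat_mul, Finset.mul_sum, Complex.exp_sum]
  apply Finset.prod_congr rfl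
  intro j _
  rw [← Complex.exp_int_mul]
  congr 1
  have h1 : m = (q j).den * ∏ i ∈ Finset.univ.erase j, (q i).den := by
    rw [hm, Finset.mul_prod_erase Finset.univ (fun i => (q i).den) (Finset.mem_univ j)]
  have h2 : ((q j).den : ℂ) * (q j : ℂ) = (q j).num := by
    have h3 : ((q j).den : ℚ) * q j = (q j).num := Rat.den_mul_eq_num (q j)
    have h4 := congrArg (fun x : ℚ => (x : ℂ)) h3
    push_cast at h4
    exact h4
  rw [h1]
  push_cast
  linear_combination ((∏ i ∈ Finset.univ.erase j, ((q i).den : ℂ)) * b j) * h2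

/-- generators up to division -/
theorem gens {s : ℂ} (hs : Transcendental ℚ s) (V : Submodule QB ℂ) [FiniteDimensional QB V]
    {k : ℕ} (hk : finrank QB V ≤ k) :
    ∃ g : Fin (k + 2) → ℂ, (∀ j, g j ≠ 0) ∧ ∀ z ∈ Lam s V, InDiv g (Complex.exp z) := by
  have hr := lam_rank hs V
  have hfin : Module.Finite ℚ (Lam s V) := by
    rw [← Module.rank_lt_aleph0_iff]
    exact hr.trans_lt (Cardinal.natCast_lt_aleph0)
  have hfr : finrank ℚ (Lam s V) ≤ k + 2 := by
    rw [← Module.finrank_eq_rank] at hr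
    have : finrank ℚ (Lam s V) ≤ finrank QB V + 2 := by exact_mod_cast hr
    omega
  set n := finrank ℚ (Lam s V) with hn
  set B := Module.finBasis ℚ (Lam s V) with hB
  obtain ⟨d, hd⟩ : ∃ d, k + 2 = n + d := ⟨k + 2 - n, by omega⟩
  rw [hd]
  refine ⟨Fin.append (fun j => Complex.exp ((B j : Lam s V) : ℂ)) (fun _ => 1),
    append_ne (fun j => Complex.exp_ne_zero _) (fun _ => one_ne_zero), fun z hz => ?_⟩
  apply indiv_left
  have h1 := B.sum_repr ⟨z, hz⟩
  have h2 := congrArg (fun u : Lam s V => (u : ℂ)) h1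
  simp only [Submodule.coe_sum, Submodule.coe_smul, Rat.smul_def] at h2
  rw [← h2]
  exact indiv_exp _ _

/-- **Lines and logarithms.** -/
theorem line_logs : ∃ C : ℕ, 1 ≤ C ∧ ∀ (k : ℕ) (s t : ℂ), Transcendental ℚ s →
    Transcendental ℚ t → ∀ V : Submodule QB ℂ, FiniteDimensional QB V → finrank QB V ≤ k →
    ∀ a b : ℂ, a ≠ 0 → b ≠ 0 → ∀ E : Finset (ℂ × ℂ),
    (∀ e ∈ E, a * e.1 + b * e.2 = 1 ∧ (∃ x ∈ Lam s V, Complex.exp x = e.1) ∧
      ∃ y ∈ Lam t V, Complex.exp y = e.2) → E.card ≤ C ^ (k + 1) := by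
  obtain ⟨C, hC1, hC⟩ := line
  refine ⟨C ^ 3, Nat.one_le_pow _ _ hC1, ?_⟩
  intro k s t hs ht V hV hk a b ha hb E hE
  obtain ⟨g, hg, hgs⟩ := gens hs V hk
  obtain ⟨g', hg', hgt⟩ := gens ht V hk
  have h1 := hC _ ℂ g g' hg hg' a b ha hb E (fun e he => by
    obtain ⟨h1, ⟨x, hx, hx'⟩, y, hy, hy'⟩ := hE e he
    refine ⟨h1, ?_, ?_, ?_, ?_⟩
    · rw [← hx']
      exact Complex.exp_ne_zero _
    · rw [← hy']
      exact Complex.exp_ne_zero _
    · rw [← hx']
      exact hgs x hx
    · rw [← hy']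
      exact hgt y hy)
  refine h1.trans ?_
  rw [← pow_mul]
  exact Nat.pow_le_pow_right hC1 (by omega)

end Pool.Agent.U945.AL
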