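import Pool.Agent.N770.PLogs
import Pool.Agent.U945.AL.Div
import Pool.Agent.U945.AL.Abs

set_option autoImplicit false

/-!
# The algebraic numbers `x` with `s L(x)` in a space of linear forms in `p`-adic logarithms
-/

namespace Pool.Agent.U945.AL

open Module Pool.Agent.N175.BG
open Pool.Agent.W254.PA (LtE logs)
open Pool.Agent.W245.PB (IsIwasawaLog brumer exists_near pe pe_zero)

variable {p : ℕ} [hp : Fact p.Prime] {L : PadicAlgCl p → PadicAlgCl p} (hL : IsIwasawaLog p L)

/-- the algebraic numbers in the algebraic closure of `ℚ_p` -/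
noncomputable abbrev QP (p : ℕ) [Fact p.Prime] := algebraicClosure ℚ (PadicAlgCl p)

include hL in
/-- the kernel of the Iwasawa logarithm -/
lemma ker_log {x : PadicAlgCl p} (hx : x ≠ 0) (h : L x = 0) :
    ∃ m : ℕ, 0 < m ∧ ∃ r : ℤ, x ^ m = (p : PadicAlgCl p) ^ r := by
  have hpne : (p : PadicAlgCl p) ≠ 0 := Nat.cast_ne_zero.2 hp.out.ne_zero
  obtain ⟨m, r, hm, hnear⟩ := exists_near (p := p) hx
  have h1 : x ^ m ≠ 0 := pow_ne_zero _ hx
  have h2 : (p : PadicAlgCl p) ^ r ≠ 0 := zpow_ne_zero _ hpne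
  have hLu : L (x ^ m * (p : PadicAlgCl p) ^ r) = 0 := by
    rw [hL.mul _ _ h1 h2, hL.pow hx, hL.zpow hpne, hL.prime, h, mul_zero, mul_zero, add_zero]
  have h3 := hL.pe_log hnear
  rw [hLu] at h3
  have h4 : ((0 : PadicAlgCl p) : ℂ_[p]) = 0 := by
    rw [PadicComplex.coe_eq, map_zero]
  rw [h4, pe_zero, PadicComplex.coe_eq] at h3
  have h5 : x ^ m * (p : PadicAlgCl p) ^ r = 1 := by
    apply (algebraMap (PadicAlgCl p) ℂ_[p]).injective
    rw [← h3, map_one]
  refine ⟨m, hm, -r, ?_⟩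
  rw [zpow_neg]
  exact eq_inv_of_mul_eq_one_left h5

/-- the algebraic numbers with `s L(x)` in `LtE ⊔ V` -/
def GP (L : PadicAlgCl p → PadicAlgCl p) (s : PadicAlgCl p)
    (V : Submodule (QP p) (PadicAlgCl p)) : Set (PadicAlgCl p) :=
  {x | x ≠ 0 ∧ IsAlgebraic ℚ x ∧ s * L x ∈ LtE (logs L) ⊔ V}

include hL in
/-- the rank -/
theorem prank_le {s : PadicAlgCl p} (hs : Transcendental ℚ s)
    (V : Submodule (QP p) (PadicAlgCl p)) [FiniteDimensional (QP p) V] {n : ℕ}
    {x : Fin n → PadicAlgCl p} (hx : ∀ i, x i ∈ GP L s V)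
    (h : LinearIndependent ℚ (fun i => L (x i))) : n ≤ finrank (QP p) V + 2 := by
  have hB : LinearIndependent (QP p) (fun i => L (x i)) := by
    rw [Fintype.linearIndependent_iff]
    intro g hg
    have hb := (brumer hL x (fun i => (hx i).1) (fun i => (hx i).2.1) h 0 isAlgebraic_zero
      (fun i => (g i : PadicAlgCl p)) (fun i => mem_algebraicClosure_iff.1 (g i).2) (by
        rw [zero_add]; exact hg)).2
    intro i
    exact Subtype.ext (hb i)
  exact abs_rank (Pool.Agent.N770.sixExp_padic hL) V hB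
    (fun i => Submodule.subset_span (Or.inr ⟨x i, (hx i).1, (hx i).2.1, rfl⟩))
    (fun c hc => hs (by rw [hc]; exact mem_algebraicClosure_iff.1 c.2)) (fun i => (hx i).2.2)

include hL in
/-- a rational relation between logarithms -/
lemma indiv_log {n : ℕ} {x : Fin n → PadicAlgCl p} (hx : ∀ i, x i ≠ 0) {y : PadicAlgCl p}
    (hy : y ≠ 0) (q : Fin n → ℚ) (h : L y = ∑ i, (q i : PadicAlgCl p) * L (x i)) :
    InDiv (Fin.append x ![(p : PadicAlgCl p)]) y := by
  classical
  have hpne : (p : PadicAlgCl p) ≠ 0 := Nat.cast_ne_zero.2 hp.out.ne_zero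
  set M : ℕ := ∏ j, (q j).den with hM
  have hM0 : 0 < M := Finset.prod_pos (fun j _ => (q j).den_pos)
  set a : Fin n → ℤ := fun j => (q j).num * ((∏ i ∈ Finset.univ.erase j, (q i).den : ℕ) : ℤ) with ha
  have haq : ∀ j, (a j : PadicAlgCl p) = M * (q j : PadicAlgCl p) := by
    intro j
    have h1 : M = (q j).den * ∏ i ∈ Finset.univ.erase j, (q i).den := by
      rw [hM, Finset.mul_prod_erase Finset.univ (fun i => (q i).den) (Finset.mem_univ j)]
    have h2 : ((q j).den : PadicAlgCl p) * (q j : PadicAlgCl p) = (q j).num := by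
      have h3 : ((q j).den : ℚ) * q j = (q j).num := Rat.den_mul_eq_num (q j)
      have h4 := congrArg (fun x : ℚ => (x : PadicAlgCl p)) h3
      push_cast at h4
      exact h4
    rw [ha, h1]
    push_cast
    linear_combination (-(∏ i ∈ Finset.univ.erase j, ((q i).den : PadicAlgCl p))) * h2
  set P : PadicAlgCl p := ∏ j, x j ^ a j with hP
  have hP0 : P ≠ 0 := Finset.prod_ne_zero_iff.2 (fun j _ => zpow_ne_zero _ (hx j))
  have hLP : L P = M * L y := by
    rw [hP, hL.prod _ _ (fun j _ => zpow_ne_zero _ (hx j)), h, Finset.mul_sum]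
    apply Finset.sum_congr rfl
    intro j _
    rw [hL.zpow (hx j), haq]
    ring
  have hLz : L (y ^ M * P⁻¹) = 0 := by
    have h1 : L P⁻¹ = -L P := by
      have h2 := hL.mul P P⁻¹ hP0 (inv_ne_zero hP0)
      rw [mul_inv_cancel₀ hP0, hL.one] at h2
      linear_combination -h2
    rw [hL.mul _ _ (pow_ne_zero _ hy) (inv_ne_zero hP0), h1, hL.pow hy, hLP]
    ring
  obtain ⟨m, hm, r, hmr⟩ := ker_log hL (mul_ne_zero (pow_ne_zero _ hy) (inv_ne_zero hP0)) hLz
  refine ⟨M * m, Nat.mul_pos hM0 hm, Fin.append (fun j => a j * m) ![r], ?_⟩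
  rw [Fin.prod_univ_add]
  simp only [Fin.append_left, Fin.append_right, Fin.prod_univ_one, Matrix.cons_val_fin_one]
  have h1 : ∏ i, x i ^ (a i * (m : ℤ)) = P ^ m := by
    rw [hP, ← Finset.prod_pow]
    apply Finset.prod_congr rfl
    intro j _
    rw [zpow_mul, zpow_natCast]
  rw [h1, ← hmr, mul_pow, inv_pow, pow_mul]
  field_simp

include hL in
/-- generators up to division -/
theorem pgens {s : PadicAlgCl p} (hs : Transcendental ℚ s)
    (V : Submodule (QP p) (PadicAlgCl p)) [FiniteDimensional (QP p) V]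
    {k : ℕ} (hk : finrank (QP p) V ≤ k) :
    ∃ g : Fin (k + 3) → PadicAlgCl p, (∀ j, g j ≠ 0) ∧ ∀ y ∈ GP L s V, InDiv g y := by
  classical
  have hpne : (p : PadicAlgCl p) ≠ 0 := Nat.cast_ne_zero.2 hp.out.ne_zero
  -- a maximal family
  set A : Set ℕ := {n | ∃ x : Fin n → PadicAlgCl p, (∀ i, x i ∈ GP L s V) ∧
    LinearIndependent ℚ (fun i => L (x i))} with hA
  have hAf : A.Finite := (Set.finite_Iic (finrank (QP p) V + 2)).subset
    (fun n ⟨x, hx, hx'⟩ => prank_le hL hs V hx hx')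
  have hAne : A.Nonempty := ⟨0, Fin.elim0, fun i => i.elim0, linearIndependent_empty_type⟩
  obtain ⟨n, hn, hmax⟩ := hAf.exists_maximal hAne
  obtain ⟨x, hx, hli⟩ := hn
  have hnk : n ≤ k + 2 := (prank_le hL hs V hx hli).trans (by omega)
  obtain ⟨d, hd⟩ : ∃ d, k + 3 = (n + 1) + d := ⟨k + 3 - (n + 1), by omega⟩
  rw [hd]
  refine ⟨Fin.append (Fin.append x ![(p : PadicAlgCl p)]) (fun _ => 1),
    append_ne (append_ne (fun j => (hx j).1) (fun j => by
      fin_cases j
      exact hpne)) (fun _ => one_ne_zero), fun y hy => ?_⟩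
  apply indiv_left
  have hdep : ¬ LinearIndependent ℚ (fun i => L ((Fin.snoc x y : Fin (n + 1) → PadicAlgCl p) i)) := by
    intro hli'
    have hmem : n + 1 ∈ A := by
      refine ⟨Fin.snoc x y, fun i => ?_, hli'⟩
      refine Fin.lastCases ?_ (fun i => ?_) i
      · rw [Fin.snoc_last]; exact hy
      · rw [Fin.snoc_castSucc]; exact hx i
    have := hmax hmem (by omega)
    omega
  have hmem : L y ∈ Submodule.span ℚ (Set.range (fun i => L (x i))) := by
    by_contra hnm
    apply hdep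
    have h1 : (fun i => L ((Fin.snoc x y : Fin (n + 1) → PadicAlgCl p) i)) =
        Fin.snoc (fun i => L (x i)) (L y) := by
      funext i
      refine Fin.lastCases ?_ (fun i => ?_) i
      · rw [Fin.snoc_last, Fin.snoc_last]
      · rw [Fin.snoc_castSucc, Fin.snoc_castSucc]
    rw [h1, linearIndependent_finSnoc]
    exact ⟨hli, hnm⟩
  obtain ⟨q, hq⟩ := (Submodule.mem_span_range_iff_exists_fun ℚ).1 hmem
  refine indiv_log hL (fun i => (hx i).1) hy.1 q ?_
  rw [← hq]
  apply Finset.sum_congr rfl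
  intro i _
  rw [Rat.smul_def]

end Pool.Agent.U945.AL
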